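import Pool.Agent.H4.SF.Exp2
import Pool.Agent.H4.FT.Start
import Pool.Agent.H4.FT.Main
import Pool.Agent.H4.Loop.Final

set_option autoImplicit false

/-!
The frozen statement S01468 (its `result`), reduced to two cases: `Odd` order (data `AL`) and exponent
two (data `AE`).
-/

namespace ALoop

open Equiv

/-- every finite simple automorphic loop is associative, given the two remaining cases -/
theorem frozen_of
    (hO : ∀ (n : ℕ) (G : Subgroup (Perm (Fin n))) (L : Fin n → Perm (Fin n)) (J : Perm (Fin n))
      (e : Fin n), AL G L J e → Odd (Nat.card (Fin n)) → Assoc L)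
    (hE : ∀ (n : ℕ) (G : Subgroup (Perm (Fin n))) (L : Fin n → Perm (Fin n)) (e : Fin n),
      AE G L e → Assoc L) :
    ¬ (∃ (n : ℕ) (op : Fin n → Fin n → Fin n) (e : Fin n),
      (∀ x, op e x = x ∧ op x e = x) ∧
      (∀ a, Function.Bijective (op a) ∧ Function.Bijective (fun z => op z a)) ∧
      (∀ x y u v a b c,
          op (op x y) a = op x (op y u) →
          op (op x y) b = op x (op y v) →
          op (op x y) c = op x (op y (op u v)) → c = op a b) ∧
      (∀ x y u v a b c,
          op a (op x y) = op (op u x) y →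
          op b (op x y) = op (op v x) y →
          op c (op x y) = op (op (op u v) x) y → c = op a b) ∧
      (∀ x u v a b c,
          op x a = op u x →
          op x b = op v x →
          op x c = op (op u v) x → c = op a b) ∧
      (∃ x y z, op (op x y) z ≠ op x (op y z)) ∧
      (∀ r : Fin n → Fin n → Prop, Equivalence r →
          (∀ a b c d, r a b → r c d → r (op a c) (op b d)) →
          (∀ a b, r a b → a = b) ∨ (∀ a b, r a b))) := by
  rintro ⟨n, op, e, hid, hbij, h1, h2, h3, ⟨x, y, z, hxyz⟩, hsimple⟩
  apply hxyz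
  have haut := Pool.Agent.H4.FT.inn_of_gens op e (fun a => Equiv.ofBijective (op a) (hbij a).1)
    (fun a => Equiv.ofBijective (fun z => op z a) (hbij a).2) (fun _ _ => rfl) (fun _ _ => rfl) hid
    h1 h2 h3
  by_cases hexp : ∃ y, op y y ≠ e
  · obtain ⟨J, h⟩ := ALoop.al_of_loop (fun a => Equiv.ofBijective (op a) (hbij a).1)
      (fun a => Equiv.ofBijective (fun z => op z a) (hbij a).2) e (fun _ _ => rfl) hid
      (fun g hg hge => haut g hg hge) hsimple hexp
    rcases Nat.even_or_odd (Nat.card (Fin n)) with hev | hodd
    · exact h.assoc hev.two_dvd x y z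
    · exact hO n _ _ _ _ h hodd x y z
  · push Not at hexp
    have h := ALoop.ae_of_loop (fun a => Equiv.ofBijective (op a) (hbij a).1)
      (fun a => Equiv.ofBijective (fun z => op z a) (hbij a).2) e (fun _ _ => rfl) hid
      (fun g hg hge => haut g hg hge) hsimple hexp
    exact hE n _ _ _ h x y z

/-- the odd case, from the commutative and the noncommutative odd case -/
theorem odd_of {Q : Type*} [Finite Q] {G : Subgroup (Perm Q)} {L : Q → Perm Q} {J : Perm Q} {e : Q}
    (hO2 : AL G L J e → Odd (Nat.card Q) → (∀ q, J * L (J q) * J = L q) → Assoc L)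
    (hO1 : AL G L J e → Odd (Nat.card Q) → (∃ q, J * L (J q) * J ≠ L q) → Assoc L)
    (h : AL G L J e) (hodd : Odd (Nat.card Q)) : Assoc L := by
  by_cases hc : ∀ q, J * L (J q) * J = L q
  · exact hO2 h hodd hc
  · push Not at hc
    exact hO1 h hodd hc

end ALoop
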