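import Pool.Agent.H4.SF.Draft
import Pool.Agent.H17.E2.Asm
import Pool.Agent.H38.O2.Main

set_option autoImplicit false

/-!
Finite simple automorphic loops: everything except noncommutative loops of odd order.
-/

namespace ALoop

open Equiv

/-- an automorphic loop (in the form of the frozen statement) with `x x = e` for all `x` is associative -/
theorem exp2_assoc {Q : Type*} [Finite Q] (op : Q → Q → Q) (e : Q)
    (hid : ∀ x, op e x = x ∧ op x e = x)
    (hbij : ∀ a, Function.Bijective (op a) ∧ Function.Bijective (fun z => op z a))
    (hLxy : ∀ x y u v a b c, op (op x y) a = op x (op y u) → op (op x y) b = op x (op y v) →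
      op (op x y) c = op x (op y (op u v)) → c = op a b)
    (hRxy : ∀ x y u v a b c, op a (op x y) = op (op u x) y → op b (op x y) = op (op v x) y →
      op c (op x y) = op (op (op u v) x) y → c = op a b)
    (hTx : ∀ x u v a b c, op x a = op u x → op x b = op v x → op x c = op (op u v) x →
      c = op a b)
    (hsimple : ∀ r : Q → Q → Prop, Equivalence r →
      (∀ a b c d, r a b → r c d → r (op a c) (op b d)) → (∀ a b, r a b → a = b) ∨ (∀ a b, r a b))
    (hexp : ∀ y, op y y = e) :
    ∀ x y z, op (op x y) z = op x (op y z) := by
  have h := ALoop.ae_of_loop (fun a => Equiv.ofBijective (op a) (hbij a).1)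
    (fun a => Equiv.ofBijective (fun z => op z a) (hbij a).2) e (fun _ _ => rfl) hid
    (fun g hg hge => Pool.Agent.H4.FT.inn_of_gens op e _ _ (fun _ _ => rfl) (fun _ _ => rfl) hid
      hLxy hRxy hTx g hg hge) hsimple hexp
  exact h.assoc

/-- the frozen statement, given the noncommutative odd case -/
theorem frozen_of1
    (hO1 : ∀ (n : ℕ) (G : Subgroup (Perm (Fin n))) (L : Fin n → Perm (Fin n)) (J : Perm (Fin n))
      (e : Fin n), AL G L J e → Odd (Nat.card (Fin n)) → ¬ (∀ q, J * L q * J = L (J q)) → Assoc L) :
    ¬ (∃ (n : ℕ) (op : Fin n → Fin n → Fin n) (e : Fin n),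
      (∀ x, op e x = x ∧ op x e = x) ∧
      (∀ a, Function.Bijective (op a) ∧ Function.Bijective (fun z => op z a)) ∧
      (∀ x y u v a b c,
          op (op x y) a = op x (op y u) →
          op (op x y) b = op x (op y v) →
          op (op x y) c = op x (op y (op u v)) → c = op a b) ∧
      (∀ x y u v a b c,
          op a (op x y) = op (op u x) y →
          op b (op x y) = op (op v x) y →
          op c (op x y) = op (op (op u v) x) y → c = op a b) ∧
      (∀ x u v a b c,
          op x a = op u x →
          op x b = op v x →
          op x c = op (op u v) x → c = op a b) ∧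
      (∃ x y z, op (op x y) z ≠ op x (op y z)) ∧
      (∀ r : Fin n → Fin n → Prop, Equivalence r →
          (∀ a b c d, r a b → r c d → r (op a c) (op b d)) →
          (∀ a b, r a b → a = b) ∨ (∀ a b, r a b))) := by
  refine frozen_of ?_ (fun n G L e h => h.assoc)
  intro n G L J e h hodd
  by_cases hc : ∀ q, J * L q * J = L (J q)
  · exact h.comm_assoc hc
  · exact hO1 n G L J e h hodd hc

end ALoop
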