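import Pool.Agent.H4.SF.Draft2

set_option autoImplicit false

/-!
Finite simple automorphic loops which are commutative or of even order are associative.
-/

namespace ALoop

open Equiv

theorem even_or_comm (Q : Type) [Finite Q] (op : Q → Q → Q) (e : Q)
    (hid : ∀ x, op e x = x ∧ op x e = x)
    (hbij : ∀ a, Function.Bijective (op a) ∧ Function.Bijective (fun z => op z a))
    (hLxy : ∀ x y u v a b c, op (op x y) a = op x (op y u) → op (op x y) b = op x (op y v) →
      op (op x y) c = op x (op y (op u v)) → c = op a b)
    (hRxy : ∀ x y u v a b c, op a (op x y) = op (op u x) y → op b (op x y) = op (op v x) y →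
      op c (op x y) = op (op (op u v) x) y → c = op a b)
    (hTx : ∀ x u v a b c, op x a = op u x → op x b = op v x → op x c = op (op u v) x →
      c = op a b)
    (hsimple : ∀ r : Q → Q → Prop, Equivalence r →
      (∀ a b c d, r a b → r c d → r (op a c) (op b d)) → (∀ a b, r a b → a = b) ∨ (∀ a b, r a b))
    (hcase : Even (Nat.card Q) ∨ ∀ x y, op x y = op y x) :
    ∀ x y z, op (op x y) z = op x (op y z) := by
  by_cases hexp : ∃ y, op y y ≠ e
  · obtain ⟨J, h⟩ := ALoop.al_of_loop (fun a => Equiv.ofBijective (op a) (hbij a).1)
      (fun a => Equiv.ofBijective (fun z => op z a) (hbij a).2) e (fun _ _ => rfl) hid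
      (fun g hg hge => Pool.Agent.H4.FT.inn_of_gens op e _ _ (fun _ _ => rfl) (fun _ _ => rfl) hid
        hLxy hRxy hTx g hg hge) hsimple hexp
    rcases hcase with heven | hcom
    · exact h.assoc heven.two_dvd
    · refine h.comm_assoc ?_
      intro q
      ext x
      have h1 := h.R_apply x (J q)
      rw [h.JJ] at h1
      rw [h1]
      exact hcom x (J q)
  · push Not at hexp
    exact exp2_assoc op e hid hbij hLxy hRxy hTx hsimple hexp

end ALoop
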