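import Pool.Agent.H17.E2.Ter

set_option autoImplicit false

/-!
From a simple automorphic loop with `x x = e` for all `x` to the data `AE`: it is commutative, since
automorphic loops have the antiautomorphic inverse property.
-/

namespace ALoop

open Equiv

variable {Q : Type*}

theorem ae_of_loop (L R : Q → Perm Q) (e : Q) (hLR : ∀ x y, L x y = R y x)
    (he : ∀ x, L e x = x ∧ L x e = x)
    (haut : ∀ g ∈ Subgroup.closure (Set.range L ∪ Set.range R), g e = e →
      ∀ x y, g (L x y) = L (g x) (g y))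
    (hsimple : ∀ r : Q → Q → Prop, Equivalence r →
      (∀ a b c d, r a b → r c d → r (L a c) (L b d)) → (∀ a b, r a b → a = b) ∨ (∀ a b, r a b))
    (hexp : ∀ x, L x x = e) :
    AE (Subgroup.closure (Set.range L)) L e := by
  set G := Subgroup.closure (Set.range L ∪ Set.range R) with hG
  have memL : ∀ x, L x ∈ G := fun x => Subgroup.subset_closure (Or.inl ⟨x, rfl⟩)
  have memR : ∀ x, R x ∈ G := fun x => Subgroup.subset_closure (Or.inr ⟨x, rfl⟩)
  have Re : ∀ x, R x e = x := fun x => by rw [← hLR]; exact (he x).1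
  have hai : ∀ (p : Perm Q) (x : Q), p (p⁻¹ x) = x := fun p x => p.apply_symm_apply x
  have hia : ∀ (p : Perm Q) (x : Q), p⁻¹ (p x) = x := fun p x => p.symm_apply_apply x
  have equi : ∀ g ∈ G, g e = e → ∀ x, g * L x * g⁻¹ = L (g x) := by
    intro g hg hge x
    rw [mul_inv_eq_iff_eq_mul]
    ext y
    exact haut g hg hge x y
  -- flexible law
  have flex : ∀ x y, L x (L y x) = L (L x y) x := by
    intro x y
    have h1 : (R x)⁻¹ * L x ∈ G := G.mul_mem (G.inv_mem (memR x)) (memL x)
    have h2 : ((R x)⁻¹ * L x) e = e := by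
      rw [Perm.mul_apply, (he x).2, Perm.inv_eq_iff_eq, Re]
    have h3 : ((R x)⁻¹ * L x) x = x := by
      rw [Perm.mul_apply, Perm.inv_eq_iff_eq]
      exact hLR x x
    have h4 := equi _ h1 h2 x
    rw [h3, mul_inv_eq_iff_eq_mul] at h4
    have h5 : (R x)⁻¹ * L x = L x * (R x)⁻¹ := by
      have : (R x)⁻¹ * L x * L x = L x * (R x)⁻¹ * L x := by rw [h4]; group
      exact mul_right_cancel this
    have h6 : L x * R x = R x * L x := by
      calc L x * R x = R x * ((R x)⁻¹ * L x) * R x := by group
        _ = R x * L x := by rw [h5]; group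
    have h7 := congrArg (fun p : Perm Q => p y) h6
    simp only [Perm.mul_apply] at h7
    rw [← hLR, ← hLR] at h7
    exact h7
  -- commutativity
  have com : ∀ c p, L c p = L p c := by
    intro c p
    set x := L c p with hx
    set y := (L x)⁻¹ c with hy
    have hxy : L x y = c := by rw [hy, hai]
    clear_value y
    have hφG : (L c)⁻¹ * (L x * L y) ∈ G :=
      G.mul_mem (G.inv_mem (memL c)) (G.mul_mem (memL x) (memL y))
    have hφ : ∀ z, ((L c)⁻¹ * (L x * L y)) z = (L c)⁻¹ (L x (L y z)) := fun z => rfl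
    set φ := (L c)⁻¹ * (L x * L y)
    have hφe : φ e = e := by
      rw [hφ, (he y).2, hxy, Perm.inv_eq_iff_eq, (he c).2]
    have hφx : φ x = x := by
      rw [hφ, flex, hxy, hia]
    have hφy : φ y = p := by
      rw [hφ, hexp, (he x).2, Perm.inv_eq_iff_eq]
    have hφw : φ ((L y)⁻¹ x) = c := by
      rw [hφ, hai, hexp, Perm.inv_eq_iff_eq, hexp]
    have h1 := haut φ hφG hφe y ((L y)⁻¹ x)
    rw [hai, hφy, hφw, hφx] at h1
    exact h1
  have hRL : ∀ x, R x = L x := by
    intro x
    ext z
    rw [← hLR, com]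
  have hGG : G = Subgroup.closure (Set.range L) := by
    have : R = L := funext hRL
    rw [hG, this, Set.union_self]
  rw [← hGG]
  refine ⟨memL, fun x => (he x).2, hexp, com, equi, hGG, ?_⟩
  intro r hr hG'
  apply hsimple r hr
  intro a b c d hab hcd
  have h1 := hG' _ (memR c) a b hab
  rw [← hLR, ← hLR] at h1
  exact hr.trans h1 (hG' _ (memL b) c d hcd)

end ALoop
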