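import Pool.Agent.H4.Loop.Final
import Pool.Agent.H4.FD.Conj

set_option autoImplicit false

/-!
In an automorphic loop of odd order the inversion fixes only the identity element.
-/

namespace ALoop

open Equiv

variable {Q : Type*} {G : Subgroup (Perm Q)} {L : Q → Perm Q} {J : Perm Q} {e : Q}

theorem sq_comm_two_group {τ τ' J : Perm Q} {s : ℕ} (hτ : τ ^ 2 ^ s = 1) (hτ' : τ' ^ 2 ^ s = 1)
    (hJ : J * J = 1) (hc : τ * τ' = τ' * τ) (h1 : J * τ * J⁻¹ = τ') (h2 : J * τ' * J⁻¹ = τ) :
    IsPGroup 2 (Subgroup.zpowers J ⊔ (Subgroup.zpowers τ ⊔ Subgroup.zpowers τ') :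
      Subgroup (Perm Q)) := by
  haveI : Fact (Nat.Prime 2) := ⟨Nat.prime_two⟩
  have hz : ∀ (a : Perm Q) (n : ℕ), a ^ 2 ^ n = 1 → IsPGroup 2 (Subgroup.zpowers a) := by
    intro a n ha
    rintro ⟨g, k, rfl⟩
    refine ⟨n, ?_⟩
    ext1
    change (a ^ k) ^ 2 ^ n = 1
    rw [← zpow_natCast, ← zpow_mul, mul_comm, zpow_mul, zpow_natCast, ha, one_zpow]
  have hA : IsPGroup 2 (Subgroup.zpowers τ ⊔ Subgroup.zpowers τ' : Subgroup (Perm Q)) := by
    apply (hz τ s hτ).to_sup_of_normal_right' (hz τ' s hτ')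
    rw [Subgroup.zpowers_le, Subgroup.mem_normalizer_iff]
    have hcc : Commute τ τ' := hc
    intro g
    constructor
    · rintro ⟨k, rfl⟩
      refine ⟨k, ?_⟩
      have := (hcc.zpow_right k).eq
      change τ' ^ k = τ * τ' ^ k * τ⁻¹
      rw [this]; group
    · rintro ⟨k, hk⟩
      refine ⟨k, ?_⟩
      have := (hcc.zpow_right k).eq
      change τ' ^ k = τ * g * τ⁻¹ at hk
      change τ' ^ k = g
      calc τ' ^ k = τ⁻¹ * (τ * τ' ^ k) := by group
        _ = τ⁻¹ * (τ' ^ k * τ) := by rw [this]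
        _ = τ⁻¹ * ((τ * g * τ⁻¹) * τ) := by rw [hk]
        _ = g := by group
  apply (hz J 1 (by rw [pow_one, pow_two, hJ])).to_sup_of_normal_right' hA
  have hmap : (Subgroup.zpowers τ ⊔ Subgroup.zpowers τ').map (MulAut.conj J).toMonoidHom =
      Subgroup.zpowers τ ⊔ Subgroup.zpowers τ' := by
    rw [Subgroup.map_sup, MonoidHom.map_zpowers, MonoidHom.map_zpowers]
    have e1 : (MulAut.conj J).toMonoidHom τ = τ' := h1
    have e2 : (MulAut.conj J).toMonoidHom τ' = τ := h2
    rw [e1, e2, sup_comm]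
  rw [Subgroup.zpowers_le, Subgroup.mem_normalizer_iff]
  have hfw : ∀ g ∈ Subgroup.zpowers τ ⊔ Subgroup.zpowers τ',
      J * g * J⁻¹ ∈ Subgroup.zpowers τ ⊔ Subgroup.zpowers τ' := by
    intro g hg
    rw [← hmap]
    exact ⟨g, hg, rfl⟩
  intro g
  refine ⟨hfw g, fun hg => ?_⟩
  have h3 := hfw _ hg
  have hJi : J⁻¹ = J := inv_eq_of_mul_eq_one_left hJ
  have h4 : J * (J * g * J⁻¹) * J⁻¹ = g := by
    rw [hJi]
    calc J * (J * g * J) * J = (J * J) * g * (J * J) := by group
      _ = g := by rw [hJ]; group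
  rwa [h4] at h3

namespace AL

theorem fix_of_odd [Finite Q] (h : AL G L J e) (hodd : Odd (Nat.card Q)) :
    ∀ x, J x = x → x = e := by
  classical
  haveI := Fintype.ofFinite Q
  intro x hJx
  by_contra hxe
  have hJJ := h.JJ1
  have hJi := h.Jinv
  have hLxx : L x x = e := by
    have h1 := h.LJ x
    rwa [hJx] at h1
  obtain ⟨s, k, hk, hn⟩ := Nat.exists_eq_two_pow_mul_odd (n := orderOf (L x))
    (orderOf_pos (L x)).ne'
  set τ := L x ^ k with hτ
  have hτG : τ ∈ G := G.pow_mem (h.memL x) k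
  have hsq : ∀ j : ℕ, (L x ^ (2 * j)) e = e := by
    intro j
    induction j with
    | zero => simp
    | succ j ih =>
      have e1 : 2 * (j + 1) = 2 * j + 1 + 1 := by ring
      rw [e1, pow_succ, pow_succ, Perm.mul_apply, Perm.mul_apply, h.Le, hLxx, ih]
  have hτe : τ e = x := by
    obtain ⟨j, hj⟩ := hk
    rw [hτ, hj, pow_succ', Perm.mul_apply, hsq, h.Le]
  have hτ2 : τ ^ 2 ^ s = 1 := by
    rw [hτ, ← pow_mul, mul_comm, ← hn, pow_orderOf_eq_one]
  have hR : J * τ * J⁻¹ = (J * L x * J) ^ k := by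
    have : J * L x * J = J * L x * J⁻¹ := by rw [hJi]
    rw [this, conj_pow]
  set τ' := J * τ * J⁻¹ with hτ'
  have hc : τ * τ' = τ' * τ := by
    have h1 : Commute (L x) (J * L x * J) := h.comLR x
    rw [hR]
    exact (h1.pow_pow k k).eq
  have hτ'2 : τ' ^ 2 ^ s = 1 := by
    rw [hτ', conj_pow, hτ2]; group
  have h2 : J * τ' * J⁻¹ = τ := by
    rw [hτ', hJi]
    calc J * (J * τ * J) * J = (J * J) * τ * (J * J) := by group
      _ = τ := by rw [hJJ]; group
  have hP := sq_comm_two_group hτ2 hτ'2 hJJ hc rfl h2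
  haveI : Fact (Nat.Prime 2) := ⟨Nat.prime_two⟩
  have hnd : ¬ 2 ∣ Nat.card Q := by
    rw [← even_iff_two_dvd, Nat.not_even_iff_odd]; exact hodd
  obtain ⟨y, hy⟩ := hP.nonempty_fixed_point_of_prime_not_dvd_card Q hnd
  rw [MulAction.mem_fixedPoints] at hy
  have hJy : J y = y := hy ⟨J, (le_sup_left : Subgroup.zpowers J ≤ _) (Subgroup.mem_zpowers J)⟩
  have hτy : τ y = y := hy ⟨τ, (le_sup_right : (Subgroup.zpowers τ ⊔ Subgroup.zpowers τ') ≤ _)
    ((le_sup_left : Subgroup.zpowers τ ≤ _) (Subgroup.mem_zpowers τ))⟩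
  -- `D_y` commutes with `τ`, `J` and `D_x`
  have hτD : τ * D L J y = D L J y * τ := (h.D_cent hτG y).2 hτy
  have hJD : J * D L J y = D L J y * J := by
    have h3 := h.D_J y
    rw [hJy] at h3
    calc J * D L J y = J * D L J y * (J * J) := by rw [hJJ, mul_one]
      _ = (J * D L J y * J) * J := by group
      _ = D L J y * J := by rw [h3]
  have hJDx : J * D L J x = D L J x * J := by
    have h3 := h.D_J x
    rw [hJx] at h3
    calc J * D L J x = J * D L J x * (J * J) := by rw [hJJ, mul_one]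
      _ = (J * D L J x * J) * J := by group
      _ = D L J x * J := by rw [h3]
  have hDx : D L J y * D L J x = D L J x * D L J y := by
    have h3 := h.D_conj hτG e
    rw [hτe, h.D_e] at h3
    rw [← h3]
    have c1 : Commute (D L J y) τ := hτD.symm
    have c2 : Commute (D L J y) J := hJD.symm
    exact ((c1.mul_right c2).mul_right c1.inv_right).eq
  have hg : D L J y * J ∈ G := by
    have h3 := h.D_mul_mem y e
    rwa [h.D_e] at h3
  have hge : (D L J y * J) e = e := by
    apply h.centJ hg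
    rw [mul_assoc, hJJ, mul_one, ← mul_assoc, hJD, mul_assoc, hJJ, mul_one]
  have hgx : (D L J y * J) x = x := by
    apply (h.D_cent hg x).1
    have c1 : Commute (D L J y) (D L J x) := hDx
    have c2 : Commute J (D L J x) := hJDx
    exact (c1.mul_left c2).eq
  have h8 : D L J y * L x * (D L J y)⁻¹ = J * L x * J := by
    have h9 := h.equi _ hg hge x
    rw [hgx, mul_inv_rev, hJi] at h9
    have h10 : D L J y * (J * L x * J) * (D L J y)⁻¹ = L x := by
      calc D L J y * (J * L x * J) * (D L J y)⁻¹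
          = D L J y * J * L x * (J * (D L J y)⁻¹) := by group
        _ = D L J y * J * L x * ((D L J y * J)⁻¹) := by rw [mul_inv_rev, hJi]
        _ = L x := ?_
      first
        | exact h9
        | (rw [mul_inv_rev, hJi]; exact h9)
    have hDi : (D L J y)⁻¹ = D L J y := inv_eq_of_mul_eq_one_left (h.D_sq y)
    rw [hDi] at h10 ⊢
    calc D L J y * L x * D L J y
        = D L J y * (D L J y * (J * L x * J) * D L J y) * D L J y := by rw [h10]
      _ = (D L J y * D L J y) * (J * L x * J) * (D L J y * D L J y) := by group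
      _ = J * L x * J := by rw [h.D_sq]; group
  have h11 : D L J y * τ * (D L J y)⁻¹ = (J * L x * J) ^ k := by
    rw [hτ, ← conj_pow, h8]
  have h12 : τ = J * τ * J⁻¹ := by
    rw [← hτ', hR, ← h11, ← hτD]; group
  have h13 : τ * J = J * τ := by
    calc τ * J = (J * τ * J⁻¹) * J := by rw [← h12]
      _ = J * τ := by group
  have h14 := h.centJ hτG h13
  rw [hτe] at h14
  exact hxe h14

end AL

end ALoop
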