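import Pool.Agent.H4.SF.Fix
import Pool.Agent.H83.O1.Full
import Pool.Agent.H75.EG.End
import Pool.Agent.H38.O2.Main

set_option autoImplicit false

/-!
The noncommutative odd case: a finite simple automorphic loop of odd order is associative.
-/

namespace ALoop

open Equiv

variable {Q : Type*} {G : Subgroup (Perm Q)} {L : Q → Perm Q} {J : Perm Q} {e : Q}

/-- a finite simple automorphic loop in which the inversion fixes only `e` is associative -/
theorem AL.assoc_of_fix [Finite Q] (h : AL G L J e) (hfix : ∀ x, J x = x → x = e) : Assoc L := by
  by_contra hna
  have hK := h.K7 hna hfix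
  rcases h.eg_end hK with hcom | has
  · apply hna
    apply h.comm_assoc
    intro q
    have h1 := hcom (J q)
    unfold Rt at h1
    rwa [h.JJ] at h1
  · exact hna has

/-- a finite simple automorphic loop of odd order is associative -/
theorem AL.assoc_odd [Finite Q] (h : AL G L J e) (hodd : Odd (Nat.card Q)) : Assoc L :=
  h.assoc_of_fix (h.fix_of_odd hodd)

end ALoop
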